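import Pool.Agent.Y142.SS.Stm

/-!
Project Y142-SS (owner helper142), task SUBI.
-/

set_option autoImplicit false

open Polynomial
open Pool.Agent.Y142.ZO Pool.Agent.Y142.ZI

namespace Pool.Agent.Y492.SS.Subi

open Pool.Agent.Y142.SS

theorem t (h : S_CF) : S_SUBI := by
  intro Q hQ hs
  obtain ⟨b, hb⟩ := h Q hQ hs
  refine ⟨b, fun ℓ hℓ hp σ hσ => ?_⟩
  obtain ⟨ι, τ, σ', -, h2, h3⟩ := hb ℓ hℓ hp σ hσ
  refine ⟨ι, fun R _ x hx hRx => ?_⟩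
  rw [← h3 x hx, ← h2 x]
  have h4 : aeval (τ (ι x)) R = τ (aeval (ι x) R) := Polynomial.aeval_algHom_apply τ.toAlgHom (ι x) R
  rw [h4, hRx, map_zero]

end Pool.Agent.Y492.SS.Subi
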